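import Pool.Agent.H22.OW.Final

/-!
# Oberwolfach randomness and density randomness do not coincide

There is a density random real that is not OW-random. All definitions are in
`Pool/Agent/H22/OW/Defs.lean`.

Proof idea. The adversary function `f` is lower semicomputable with integral at most `2` and
dominates (with weights) all effectively open sets and the components of all Martin-Loef tests. We
grow a finite binary tree of nested dyadic cells. A cell at depth `d` is moved to a new place in the
same slot of its parent when the growth counter `β` has grown by `(3/2)^d` times its length since it
was placed. The counter grows by constant steps as long as on every branch the mass that `f` has put
near the cells of the branch is large; then a potential shows that `β` stays bounded. Otherwise we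
extend the tree above a good leaf and remove everything to the right of it. Then the levels of the
cells increase along the tree in depth first order, and this gives that the union `G m` of the cells
of length at most `β - β m` that are seen after stage `m` has measure at most `9 (β - β m)`. The
final branch converges to a real `z` in all the sets `G m`; the masses along it are summable, and
this gives density randomness of `z`.
-/

set_option autoImplicit false

namespace Pool.Agent.Results.MP_9d9f9c_lc.DensityNotOW

open Set OWD

/-- There is a real number in `[0,1]` that is density random but not OW-random. -/
theorem result : ∃ z ∈ Icc (0 : ℝ) 1, DensityRandom z ∧ ¬ OWRandomReal z := OWD.main

end Pool.Agent.Results.MP_9d9f9c_lc.DensityNotOW
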